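import Pool.Agent.helper45.TC.Spec
import Pool.Agent.helper80.PC2.LALG

/-!
# Project TC, row GEN: the formula for `N_C`
-/

set_option autoImplicit false

namespace Pool.Agent.TC

open Polynomial Finset Pool.Agent.helper27.PC

theorem GEN_nrm (u : St →₀ ℤ[X]) : dot u u = nrm u := by
  unfold dot nrm Finsupp.sum
  refine Finset.sum_congr rfl fun S _ => ?_
  beta_reduce
  ring

theorem GEN_symm (u u' : St →₀ ℤ[X]) : dot u u' = dot u' u := by
  classical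
  rw [LALG_dot u u' (u.support ∪ u'.support) subset_union_left,
    LALG_dot u' u (u.support ∪ u'.support) subset_union_right]
  exact Finset.sum_congr rfl fun S _ => mul_comm _ _

theorem GEN_add (u v v' : St →₀ ℤ[X]) : dot u (v + v') = dot u v + dot u v' := by
  rw [LALG_dot u (v + v') u.support Subset.rfl, LALG_dot u v u.support Subset.rfl, LALG_dot u v' u.support Subset.rfl,
    ← Finset.sum_add_distrib]
  refine Finset.sum_congr rfl fun S _ => ?_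
  rw [Finsupp.add_apply, mul_add]

theorem GEN_Dg (f : Lab → ℤ[X]) (u : St →₀ ℤ[X]) (S : St) : Dg f u S = u S * ∑ l ∈ S, f l := by
  classical
  unfold Dg
  rw [Finsupp.linearCombination_apply, Finsupp.sum_apply]
  unfold Finsupp.sum
  rw [Finset.sum_eq_single S]
  · beta_reduce
    rw [Finsupp.smul_apply, smul_eq_mul, Finsupp.single_eq_same]
  · intro T _ hT
    beta_reduce
    rw [Finsupp.smul_apply, Finsupp.single_eq_of_ne (Ne.symm hT), smul_zero]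
  · intro hS
    beta_reduce
    rw [Finsupp.notMem_support_iff.1 hS, zero_smul, Finsupp.zero_apply]

theorem GEN_dotDg (f : Lab → ℤ[X]) (u : St →₀ ℤ[X]) :
    dot u (Dg f u) = ∑ S ∈ u.support, u S ^ 2 * ∑ l ∈ S, f l := by
  rw [LALG_dot u _ u.support Subset.rfl]
  refine Finset.sum_congr rfl fun S _ => ?_
  rw [GEN_Dg]
  ring

theorem GEN_up (b : ℕ) (l : Lab) : b ≤ (up b l).2 := by
  unfold up
  exact Nat.le_add_left _ _

theorem GEN_sum (b : ℕ) (S : St) : ∑ l ∈ S, (wl l * wl l - if b ≤ l.2 then wl (dn b l) * wl (dn b l) else 0) =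
    ∑ l ∈ addable b S, wl l ^ 2 - ∑ m ∈ S.filter (fun m => b ≤ m.2 ∧ dn b m ∉ S), wl (dn b m) ^ 2 := by
  classical
  rw [Finset.sum_sub_distrib]
  have h1 : ∑ l ∈ S, wl l * wl l = ∑ l ∈ addable b S, wl l ^ 2 + ∑ l ∈ S.filter (fun l => ¬ up b l ∉ S), wl l ^ 2 := by
    unfold addable
    rw [Finset.sum_filter_add_sum_filter_not]
    exact Finset.sum_congr rfl fun l _ => (sq _).symm
  have h2 : ∑ l ∈ S, (if b ≤ l.2 then wl (dn b l) * wl (dn b l) else 0) =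
      ∑ m ∈ S.filter (fun m => b ≤ m.2 ∧ dn b m ∉ S), wl (dn b m) ^ 2 +
        ∑ m ∈ S.filter (fun m => b ≤ m.2 ∧ dn b m ∈ S), wl (dn b m) ^ 2 := by
    rw [← Finset.sum_filter, ← Finset.sum_filter_add_sum_filter_not (S.filter fun l => b ≤ l.2) (fun m => dn b m ∉ S),
      Finset.filter_filter, Finset.filter_filter]
    congr 1
    · exact Finset.sum_congr rfl fun l _ => (sq _).symm
    · refine Finset.sum_congr ?_ fun l _ => (sq _).symm
      ext m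
      rw [mem_filter, mem_filter, not_not]
  have h3 : ∑ l ∈ S.filter (fun l => ¬ up b l ∉ S), wl l ^ 2 =
      ∑ m ∈ S.filter (fun m => b ≤ m.2 ∧ dn b m ∈ S), wl (dn b m) ^ 2 := by
    refine Finset.sum_nbij' (fun l => up b l) (fun m => dn b m) ?_ ?_ ?_ ?_ ?_
    · intro l hl
      obtain ⟨hl1, hl2⟩ := mem_filter.1 hl
      exact mem_filter.2 ⟨not_not.1 hl2, GEN_up b l, by rw [LALG_dn_up]; exact hl1⟩
    · intro m hm
      obtain ⟨hm1, hm2, hm3⟩ := mem_filter.1 hm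
      exact mem_filter.2 ⟨hm3, by rw [LALG_up_dn hm2]; exact not_not.2 hm1⟩
    · intro l _
      exact LALG_dn_up b l
    · intro m hm
      exact LALG_up_dn (mem_filter.1 hm).2.1
    · intro l _
      rw [LALG_dn_up]
  rw [h1, h2, h3]
  ring

theorem GEN_bij (b : ℕ) (hb : 1 ≤ b) (y : St →₀ ℤ[X]) (𝓡 : Finset St)
    (h𝓡 : ∀ R, ∀ l ∈ addable b R, y (move b R l) ≠ 0 → R ∈ 𝓡) :
    ∑ S ∈ y.support, y S ^ 2 * ∑ m ∈ S.filter (fun m => b ≤ m.2 ∧ dn b m ∉ S), wl (dn b m) ^ 2 =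
      ∑ R ∈ 𝓡, ∑ l ∈ addable b R, ((-1) ^ cnt R l b * wl l * y (move b R l)) ^ 2 := by
  classical
  have h1 : ∀ R ∈ 𝓡, ∑ l ∈ addable b R, ((-1) ^ cnt R l b * wl l * y (move b R l)) ^ 2 =
      ∑ l ∈ (addable b R).filter (fun l => y (move b R l) ≠ 0), y (move b R l) ^ 2 * wl l ^ 2 := by
    intro R _
    rw [Finset.sum_filter]
    refine Finset.sum_congr rfl fun l _ => ?_
    by_cases h : y (move b R l) = 0
    · rw [if_neg (not_not.2 h), h]
      ring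
    · rw [if_pos h, mul_pow, mul_pow, ← pow_mul, mul_comm (cnt R l b) 2, pow_mul, neg_one_sq, one_pow]
      ring
  rw [Finset.sum_congr rfl h1]
  have h2 : ∀ S ∈ y.support, y S ^ 2 * ∑ m ∈ S.filter (fun m => b ≤ m.2 ∧ dn b m ∉ S), wl (dn b m) ^ 2 =
      ∑ m ∈ S.filter (fun m => b ≤ m.2 ∧ dn b m ∉ S), y S ^ 2 * wl (dn b m) ^ 2 := fun S _ => Finset.mul_sum _ _ _
  rw [Finset.sum_congr rfl h2, Finset.sum_sigma', Finset.sum_sigma']
  refine Finset.sum_bij' (fun (p : (_ : St) × Lab) _ => (⟨insert (dn b p.2) (p.1.erase p.2), dn b p.2⟩ : (_ : St) × Lab))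
    (fun (p : (_ : St) × Lab) _ => (⟨move b p.1 p.2, up b p.2⟩ : (_ : St) × Lab)) ?_ ?_ ?_ ?_ ?_
  · rintro ⟨S, m⟩ hp
    obtain ⟨hS, hm⟩ := Finset.mem_sigma.1 hp
    obtain ⟨hm1, hm2, hm3⟩ := mem_filter.1 hm
    obtain ⟨hb1, hb2⟩ := LALG_back hb hm1 hm2 hm3
    have hne : y (move b (insert (dn b m) (S.erase m)) (dn b m)) ≠ 0 := by
      rw [hb2]
      exact Finsupp.mem_support_iff.1 hS
    exact Finset.mem_sigma.2 ⟨h𝓡 _ _ hb1 hne, mem_filter.2 ⟨hb1, hne⟩⟩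
  · rintro ⟨R, l⟩ hp
    obtain ⟨_, hl⟩ := Finset.mem_sigma.1 hp
    obtain ⟨hl1, hl2⟩ := mem_filter.1 hl
    refine Finset.mem_sigma.2 ⟨Finsupp.mem_support_iff.2 hl2, mem_filter.2 ⟨?_, GEN_up b l, ?_⟩⟩
    · exact mem_insert_self _ _
    · change dn b (up b l) ∉ move b R l
      rw [LALG_dn_up]
      unfold move
      rw [mem_insert, mem_erase]
      rintro (h | h)
      · exact LALG_ne_up hb l h
      · exact h.1 rfl
  · rintro ⟨S, m⟩ hp
    obtain ⟨hS, hm⟩ := Finset.mem_sigma.1 hp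
    obtain ⟨hm1, hm2, hm3⟩ := mem_filter.1 hm
    obtain ⟨hb1, hb2⟩ := LALG_back hb hm1 hm2 hm3
    change (⟨move b (insert (dn b m) (S.erase m)) (dn b m), up b (dn b m)⟩ : (_ : St) × Lab) = ⟨S, m⟩
    rw [hb2, LALG_up_dn hm2]
  · rintro ⟨R, l⟩ hp
    obtain ⟨_, hl⟩ := Finset.mem_sigma.1 hp
    obtain ⟨hl1, hl2⟩ := mem_filter.1 hl
    obtain ⟨hl3, hl4⟩ := LALG_mem_addable.1 hl1
    change (⟨insert (dn b (up b l)) ((move b R l).erase (up b l)), dn b (up b l)⟩ : (_ : St) × Lab) = ⟨R, l⟩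
    rw [LALG_dn_up]
    unfold move
    rw [erase_insert (fun h => hl4 (mem_of_mem_erase h)), insert_erase hl3]
  · rintro ⟨S, m⟩ hp
    obtain ⟨hS, hm⟩ := Finset.mem_sigma.1 hp
    obtain ⟨hm1, hm2, hm3⟩ := mem_filter.1 hm
    obtain ⟨hb1, hb2⟩ := LALG_back hb hm1 hm2 hm3
    change y S ^ 2 * wl (dn b m) ^ 2 = y (move b (insert (dn b m) (S.erase m)) (dn b m)) ^ 2 * wl (dn b m) ^ 2
    rw [hb2]

theorem GEN_low (hLOV : LOV_stmt) (b : ℕ) (hb : 1 ≤ b) (y : St →₀ ℤ[X]) (𝓡 : Finset St)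
    (h𝓡 : ∀ R, ∀ l ∈ addable b R, y (move b R l) ≠ 0 → R ∈ 𝓡) :
    nrm (Low wl b y) = ∑ R ∈ 𝓡, (∑ l ∈ addable b R, (-1) ^ cnt R l b * wl l * y (move b R l)) ^ 2 := by
  unfold nrm
  rw [Finsupp.sum_of_support_subset (Low wl b y) (s := 𝓡) ?_ _ (fun R _ => by ring)]
  · refine Finset.sum_congr rfl fun R _ => ?_
    rw [hLOV wl b y R hb]
  · intro R hR
    have h1 := Finsupp.mem_support_iff.1 hR
    rw [hLOV wl b y R hb] at h1
    obtain ⟨l, hl, h2⟩ := Finset.exists_ne_zero_of_sum_ne_zero h1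
    exact h𝓡 R l hl (right_ne_zero_of_mul h2)

theorem GEN_PU (s a b : ℕ) : PU true (s + a + b) [s, a, b] 0 = nrm (Rib wl b (yv s a b)) := by
  unfold PU
  rw [pow_zero]
  have h : vecT true (s + a + b) [s, a, b] = Rib wl b (yv s a b) := by
    rw [yv_eq, ← wlast s a b]
    unfold vecT
    simp only [fockT, zero_add]
  rw [h]
  rfl

theorem GEN_core (hLA : LA_stmt) (hLB : LB_stmt) (n k b : ℕ) (hb : 1 ≤ b) (y : St →₀ ℤ[X]) (hG : GV n k y) (hk : k + b ≤ n) :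
    nrm (Rib wl b y) = nrm (Low wl b y) + ∑ S ∈ y.support, y S ^ 2 *
        ∑ l ∈ S, (wl l * wl l - if b ≤ l.2 then wl (dn b l) * wl (dn b l) else 0) := by
  have hB := (hLB ℤ[X] wl wl n k b b y hb hb hG hk).2.1 rfl
  have hB2 := sub_eq_iff_eq_add.1 hB
  have h1 : dot (Rib wl b y) (Rib wl b y) = dot y (Low wl b (Rib wl b y)) := hLA ℤ[X] wl b y (Rib wl b y) hb
  have h2 : dot (Rib wl b (Low wl b y)) y = dot (Low wl b y) (Low wl b y) := hLA ℤ[X] wl b (Low wl b y) y hb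
  have h3 : nrm (Rib wl b y) = dot y (Low wl b (Rib wl b y)) := (GEN_nrm (Rib wl b y)).symm.trans h1
  have h4 : dot y (Rib wl b (Low wl b y)) = nrm (Low wl b y) :=
    ((GEN_symm y (Rib wl b (Low wl b y))).trans h2).trans (GEN_nrm (Low wl b y))
  rw [h3, hB2, GEN_add, h4, GEN_dotDg, add_comm]

theorem GEN_all (hLA : LA_stmt) (hLB : LB_stmt) (hLOV : LOV_stmt) (n k b : ℕ) (hb : 1 ≤ b) (y : St →₀ ℤ[X]) (hG : GV n k y)
    (hk : k + b ≤ n) (𝓡 : Finset St) (h𝓡 : ∀ R, ∀ l ∈ addable b R, y (move b R l) ≠ 0 → R ∈ 𝓡) :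
    nrm (Rib wl b y) = ∑ S ∈ y.support, y S ^ 2 * ∑ l ∈ addable b S, wl l ^ 2 +
      ∑ R ∈ 𝓡, ((∑ l ∈ addable b R, (-1) ^ cnt R l b * wl l * y (move b R l)) ^ 2 -
        ∑ l ∈ addable b R, ((-1) ^ cnt R l b * wl l * y (move b R l)) ^ 2) := by
  have h2 : ∑ S ∈ y.support, y S ^ 2 *
        ∑ l ∈ S, (wl l * wl l - if b ≤ l.2 then wl (dn b l) * wl (dn b l) else 0) =
      ∑ S ∈ y.support, y S ^ 2 * ∑ l ∈ addable b S, wl l ^ 2 -
        ∑ R ∈ 𝓡, ∑ l ∈ addable b R, ((-1) ^ cnt R l b * wl l * y (move b R l)) ^ 2 := by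
    rw [← GEN_bij b hb y 𝓡 h𝓡, ← Finset.sum_sub_distrib]
    refine Finset.sum_congr rfl fun S _ => ?_
    rw [GEN_sum, mul_sub]
  rw [GEN_core hLA hLB n k b hb y hG hk, h2, GEN_low hLOV b hb y 𝓡 h𝓡, Finset.sum_sub_distrib]
  ring

theorem GEN (hLA : LA_stmt) (hLB : LB_stmt) (hLG : LG_stmt) (hLOV : LOV_stmt) : GEN_stmt := by
  intro s a b hs ha hb 𝓡 h𝓡
  have hG0 : GV (s + a + b) 0 (Finsupp.single (vac (s + a + b)) (1 : ℤ[X])) := by
    intro S hS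
    have h1 : S = vac (s + a + b) := Finset.mem_singleton.1 (Finsupp.support_single_subset hS)
    rw [h1]
    exact SD_good_vac _
  have hG1 := (hLG ℤ[X] (wT true (s + a + b) 0 s) (s + a + b) 0 s _ hs hG0).1
  have hG2 := (hLG ℤ[X] (wT true (s + a + b) s a) (s + a + b) (0 + s) a _ ha hG1).1
  have hG3 : GV (s + a + b) (0 + s + a) (yv s a b) := by
    rw [yv_eq]
    exact hG2
  rw [GEN_PU]
  exact GEN_all hLA hLB hLOV (s + a + b) (0 + s + a) b hb (yv s a b) hG3 (by omega) 𝓡 h𝓡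

end Pool.Agent.TC
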